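import Pool.Agent.W175.EO.Pat
import Pool.Agent.H430R3.KST

/-!
Every dense edge-ordered graph contains the edge-ordered path `4,1,2,5,6,3`.
-/

set_option autoImplicit false

namespace Pool.Agent.W175.EO

/-- Either four consecutive disjoint intervals, or a point in many intervals. -/
theorem pierce {Y : Type} (S : Finset Y) (lo hi : Y → ℕ) (q : ℕ)
    (hS : 3 * q < S.card) :
    (∃ y1 ∈ S, ∃ y2 ∈ S, ∃ y3 ∈ S, ∃ y4 ∈ S, hi y1 < lo y2 ∧ hi y2 < lo y3 ∧ hi y3 < lo y4) ∨
    ∃ (τ : ℕ) (S' : Finset Y), S' ⊆ S ∧ q < S'.card ∧ ∀ y ∈ S', lo y ≤ τ ∧ τ ≤ hi y := by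
  classical
  have step : ∀ A : Finset Y, A ⊆ S → A.Nonempty → ∃ y0 ∈ A, ∀ y ∈ A.filter (fun y => lo y ≤ hi y0),
      lo y ≤ hi y0 ∧ hi y0 ≤ hi y := by
    intro A _ hne
    obtain ⟨y0, hy0, hmin⟩ := Finset.exists_min_image A hi hne
    refine ⟨y0, hy0, fun y hy => ?_⟩
    rw [Finset.mem_filter] at hy
    exact ⟨hy.2, hmin y hy.1⟩
  have hne1 : S.Nonempty := by rw [← Finset.card_pos]; omega
  obtain ⟨y1, hy1, h1⟩ := step S subset_rfl hne1
  by_cases c1 : q < (S.filter (fun y => lo y ≤ hi y1)).card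
  · exact Or.inr ⟨hi y1, _, Finset.filter_subset _ _, c1, h1⟩
  set S2 := S.filter (fun y => ¬ lo y ≤ hi y1) with hS2
  have e1 : (S.filter (fun y => lo y ≤ hi y1)).card + S2.card = S.card := by
    rw [hS2]; exact Finset.card_filter_add_card_filter_not _
  have hc2 : 2 * q < S2.card := by omega
  have hne2 : S2.Nonempty := by rw [← Finset.card_pos]; omega
  have hs2 : S2 ⊆ S := Finset.filter_subset _ _
  obtain ⟨y2, hy2, h2⟩ := step S2 hs2 hne2
  by_cases c2 : q < (S2.filter (fun y => lo y ≤ hi y2)).card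
  · exact Or.inr ⟨hi y2, _, (Finset.filter_subset _ _).trans hs2, c2, h2⟩
  set S3 := S2.filter (fun y => ¬ lo y ≤ hi y2) with hS3
  have e2 : (S2.filter (fun y => lo y ≤ hi y2)).card + S3.card = S2.card := by
    rw [hS3]; exact Finset.card_filter_add_card_filter_not _
  have hc3 : q < S3.card := by omega
  have hne3 : S3.Nonempty := by rw [← Finset.card_pos]; omega
  have hs3 : S3 ⊆ S := (Finset.filter_subset _ _).trans hs2
  obtain ⟨y3, hy3, h3⟩ := step S3 hs3 hne3
  by_cases c3 : q < (S3.filter (fun y => lo y ≤ hi y3)).card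
  · exact Or.inr ⟨hi y3, _, (Finset.filter_subset _ _).trans hs3, c3, h3⟩
  have e3 : (S3.filter (fun y => lo y ≤ hi y3)).card +
      (S3.filter (fun y => ¬ lo y ≤ hi y3)).card = S3.card :=
    Finset.card_filter_add_card_filter_not _
  have hc4 : 0 < (S3.filter (fun y => ¬ lo y ≤ hi y3)).card := by omega
  obtain ⟨y4, hy4⟩ := Finset.card_pos.1 hc4
  rw [Finset.mem_filter] at hy4
  left
  refine ⟨y1, hy1, y2, hs2 hy2, y3, hs3 hy3, y4, hs3 hy4.1, ?_, ?_, ?_⟩
  · rw [hS2, Finset.mem_filter] at hy2; omega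
  · rw [hS3, Finset.mem_filter] at hy3; omega
  · omega

open Classical in
theorem pigeon {Y K : Type} [Fintype K] (f : Y → K) (S : Finset Y) (n : ℕ)
    (h : Fintype.card K * n < S.card) : ∃ k, ∃ T ⊆ S, n < T.card ∧ ∀ y ∈ T, f y = k := by
  obtain ⟨k, -, hk⟩ := Finset.exists_lt_card_fiber_of_mul_lt_card_of_maps_to
    (s := S) (t := (Finset.univ : Finset K)) (f := f) (fun y _ => Finset.mem_univ _)
    (by rw [Finset.card_univ]; exact h)
  exact ⟨k, _, Finset.filter_subset _ _, hk, fun y hy => (Finset.mem_filter.1 hy).2⟩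

/-- The combinatorial core, for ten rows and many columns. -/
theorem core : ∃ K0 : ℕ, ∀ {Y : Type} (w : Fin 10 → Y → ℕ) (S : Finset Y)
    (_ : ∀ i j, ∀ y ∈ S, ∀ z ∈ S, w i y = w j z → i = j ∧ y = z)
    (_ : K0 < S.card),
    (∃ i1 i2 i3 : Fin 10, i1 ≠ i2 ∧ i1 ≠ i3 ∧ i2 ≠ i3 ∧
      ∃ y1 ∈ S, ∃ y2 ∈ S, ∃ y3 ∈ S, ∃ y4 ∈ S, y1 ≠ y2 ∧ y1 ≠ y3 ∧ y1 ≠ y4 ∧ y2 ≠ y3 ∧ y2 ≠ y4 ∧
        y3 ≠ y4 ∧ w i1 y1 < w i2 y1 ∧ w i2 y1 < w i3 y2 ∧ w i3 y2 < w i1 y3 ∧
        w i1 y3 < w i2 y4 ∧ w i2 y4 < w i3 y4) ∨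
    (∃ s1 s2 s3 s4 : Fin 10, s1 ≠ s2 ∧ s1 ≠ s3 ∧ s1 ≠ s4 ∧ s2 ≠ s3 ∧ s2 ≠ s4 ∧ s3 ≠ s4 ∧
      ∃ k1 ∈ S, ∃ k2 ∈ S, ∃ k3 ∈ S, k1 ≠ k2 ∧ k1 ≠ k3 ∧ k2 ≠ k3 ∧
        w s1 k1 < w s1 k2 ∧ w s1 k2 < w s2 k3 ∧ w s2 k3 < w s3 k1 ∧ w s3 k1 < w s4 k2 ∧
        w s4 k2 < w s4 k3) := by
  classical
  refine ⟨Fintype.card (Fin 10 × Fin 10 → Bool) * 60, ?_⟩
  intro Y w S hw hS
  -- all columns of `S1` order the rows in the same way
  let cmp : Y → (Fin 10 × Fin 10 → Bool) := fun y p => decide (w p.1 y < w p.2 y)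
  obtain ⟨f, S1, hS1S, hf, hS1⟩ := pigeon cmp S 60 hS
  clear hS
  have hne : S1.Nonempty := by rw [← Finset.card_pos]; omega
  obtain ⟨y0, hy0⟩ := hne
  let ρ : Equiv.Perm (Fin 10) := Tuple.sort (fun i => w i y0)
  have hρ0 : ∀ i j : Fin 10, i < j → w (ρ i) y0 < w (ρ j) y0 := by
    intro i j hij
    have h1 : w (ρ i) y0 ≤ w (ρ j) y0 := Tuple.monotone_sort (fun i => w i y0) hij.le
    refine lt_of_le_of_ne h1 (fun h => ?_)
    have := (hw _ _ y0 (hS1S hy0) y0 (hS1S hy0) h).1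
    exact hij.ne (ρ.injective this)
  have hρ : ∀ y ∈ S1, ∀ i j : Fin 10, i < j → w (ρ i) y < w (ρ j) y := by
    intro y hy i j hij
    have e1 : cmp y = f := hS1 y hy
    have e2 : cmp y0 = f := hS1 y0 hy0
    have e3 : cmp y (ρ i, ρ j) = cmp y0 (ρ i, ρ j) := by rw [e1, e2]
    have e4 : decide (w (ρ i) y < w (ρ j) y) = decide (w (ρ i) y0 < w (ρ j) y0) := e3
    have e5 := hρ0 i j hij
    rw [decide_eq_decide] at e4
    exact e4.2 e5
  by_contra hcon
  push Not at hcon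
  obtain ⟨hA, hB⟩ := hcon
  -- separation
  have sep : ∀ (a b c : Fin 10), a < b → b < c → ∀ (T : Finset Y), T ⊆ S1 → ∀ q, 3 * q < T.card →
      ∃ (τ : ℕ) (T' : Finset Y), T' ⊆ T ∧ q < T'.card ∧
        ∀ y ∈ T', w (ρ a) y ≤ τ ∧ τ ≤ w (ρ c) y := by
    intro a b c hab hbc T hT q hq
    rcases pierce T (w (ρ a)) (w (ρ c)) q hq
      with ⟨y1, h1, y2, h2, y3, h3, y4, h4, l12, l23, l34⟩ | h
    · exfalso
      have g1 := hρ y1 (hT h1)
      have g2 := hρ y2 (hT h2)
      have g3 := hρ y3 (hT h3)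
      have g4 := hρ y4 (hT h4)
      have a1 := g1 a b hab
      have a2 := g1 b c hbc
      have a3 := g2 a b hab
      have a4 := g2 b c hbc
      have a5 := g3 a b hab
      have a6 := g3 b c hbc
      have a7 := g4 a b hab
      have a8 := g4 b c hbc
      have hne : ∀ y z, w (ρ a) y < w (ρ a) z → y ≠ z := fun y z h e => by
        rw [e] at h; exact lt_irrefl _ h
      have := hA (ρ a) (ρ b) (ρ c) (fun h => hab.ne (ρ.injective h))
        (fun h => (hab.trans hbc).ne (ρ.injective h)) (fun h => hbc.ne (ρ.injective h))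
        y1 (hS1S (hT h1)) y2 (hS1S (hT h2)) y3 (hS1S (hT h3)) y4 (hS1S (hT h4))
        (hne _ _ (by omega)) (hne _ _ (by omega)) (hne _ _ (by omega)) (hne _ _ (by omega))
        (hne _ _ (by omega)) (hne _ _ (by omega)) (by omega) (by omega) (by omega) (by omega)
      omega
    · exact h
  obtain ⟨τ1, T1, hT1, hq1, hs1⟩ := sep 0 1 2 (by decide) (by decide) S1 subset_rfl 18 (by omega)
  obtain ⟨τ2, T2, hT2, hq2, hs2⟩ := sep 3 4 5 (by decide) (by decide) T1 hT1 6 (by omega)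
  obtain ⟨τ3, T3, hT3, hq3, hs3⟩ := sep 6 7 8 (by decide) (by decide) T2 (hT2.trans hT1) 2
    (by omega)
  have hT3S : T3 ⊆ S := hT3.trans (hT2.trans (hT1.trans hS1S))
  -- separated rows `0, 3, 6, 9`
  have r1 : ∀ y ∈ T3, w (ρ 0) y ≤ τ1 := fun y hy => (hs1 y (hT2 (hT3 hy))).1
  have r2 : ∀ y ∈ T3, τ1 < w (ρ 3) y ∧ w (ρ 3) y ≤ τ2 := fun y hy => by
    have h1 := (hs1 y (hT2 (hT3 hy))).2
    have h2 := (hs2 y (hT3 hy)).1
    have h3 := hρ y (hT1 (hT2 (hT3 hy))) 2 3 (by decide)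
    exact ⟨by omega, h2⟩
  have r3 : ∀ y ∈ T3, τ2 < w (ρ 6) y ∧ w (ρ 6) y ≤ τ3 := fun y hy => by
    have h1 := (hs2 y (hT3 hy)).2
    have h2 := (hs3 y hy).1
    have h3 := hρ y (hT1 (hT2 (hT3 hy))) 5 6 (by decide)
    exact ⟨by omega, h2⟩
  have r4 : ∀ y ∈ T3, τ3 < w (ρ 9) y := fun y hy => by
    have h1 := (hs3 y hy).2
    have h3 := hρ y (hT1 (hT2 (hT3 hy))) 8 9 (by decide)
    omega
  -- choose the three columns
  have hcols : ∃ k1 ∈ T3, ∃ k2 ∈ T3, ∃ k3 ∈ T3, k1 ≠ k2 ∧ k1 ≠ k3 ∧ k2 ≠ k3 ∧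
      w (ρ 0) k1 < w (ρ 0) k2 ∧ w (ρ 9) k2 < w (ρ 9) k3 := by
    have hne : T3.Nonempty := by rw [← Finset.card_pos]; omega
    obtain ⟨m, hm, hmax⟩ := Finset.exists_max_image T3 (w (ρ 0)) hne
    have h2 : 1 < (T3.erase m).card := by rw [Finset.card_erase_of_mem hm]; omega
    obtain ⟨a, ha, b, hb, hab⟩ := Finset.one_lt_card.1 h2
    have ha' := Finset.mem_of_mem_erase ha
    have hb' := Finset.mem_of_mem_erase hb
    have ham := Finset.ne_of_mem_erase ha
    have hbm := Finset.ne_of_mem_erase hb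
    have lt0 : ∀ y ∈ T3, y ≠ m → w (ρ 0) y < w (ρ 0) m := fun y hy hne =>
      lt_of_le_of_ne (hmax y hy) (fun h => hne (hw _ _ y (hT3S hy) m (hT3S hm) h).2)
    have neq : ∀ i, ∀ y ∈ T3, ∀ z ∈ T3, y ≠ z → w i y ≠ w i z := fun i y hy z hz hne h =>
      hne (hw _ _ y (hT3S hy) z (hT3S hz) h).2
    rcases lt_or_gt_of_ne (neq (ρ 9) a ha' m hm ham) with h9a | h9a
    · rcases lt_or_gt_of_ne (neq (ρ 9) b hb' m hm hbm) with h9b | h9b
      · -- `m` is the maximum of both
        rcases lt_or_gt_of_ne (neq (ρ 0) a ha' b hb' hab) with h | h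
        · exact ⟨a, ha', b, hb', m, hm, hab, ham, hbm, h, h9b⟩
        · exact ⟨b, hb', a, ha', m, hm, hab.symm, hbm, ham, h, h9a⟩
      · exact ⟨a, ha', m, hm, b, hb', ham, hab, hbm.symm, lt0 a ha' ham, h9b⟩
    · exact ⟨b, hb', m, hm, a, ha', hbm, hab.symm, ham.symm, lt0 b hb' hbm, h9a⟩
  obtain ⟨k1, h1, k2, h2, k3, h3, n12, n13, n23, l0, l9⟩ := hcols
  have q1 := r1 k2 h2
  have q2 := r2 k3 h3
  have q3 := r3 k1 h1
  have q4 := r4 k2 h2
  have hρne : ∀ i j : Fin 10, i ≠ j → ρ i ≠ ρ j := fun i j h e => h (ρ.injective e)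
  have := hB (ρ 0) (ρ 3) (ρ 6) (ρ 9) (hρne _ _ (by decide)) (hρne _ _ (by decide))
    (hρne _ _ (by decide)) (hρne _ _ (by decide)) (hρne _ _ (by decide)) (hρne _ _ (by decide))
    k1 (hT3S h1) k2 (hT3S h2) k3 (hT3S h3) n12 n13 n23 l0 (by omega) (by omega) (by omega)
  omega

/-- Dense edge-ordered graphs contain the path. -/
theorem dense (ε : ℝ) (hε : 0 < ε) : ∃ N : ℕ, ∀ n : ℕ, N ≤ n →
    ∀ (G : SimpleGraph (Fin n)) (M : Sym2 (Fin n) → ℕ), Set.InjOn M G.edgeSet →
      ¬ HasCopy G M → (G.edgeSet.ncard : ℝ) ≤ ε * (n : ℝ) ^ 2 := by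
  classical
  obtain ⟨q, hq⟩ := exists_nat_gt (1 / ε)
  have hq0 : (0 : ℝ) < q := lt_trans (by positivity) hq
  have hq1 : 1 ≤ q := by exact_mod_cast hq0
  obtain ⟨K, hK⟩ := core
  obtain ⟨s, hs⟩ : ∃ s : ℕ, s = K + 11 := ⟨_, rfl⟩
  have hs10 : 10 ≤ s := by omega
  obtain ⟨R0, hR0⟩ := Pool.Agent.H430R3.weak_kst s q (le_trans (by norm_num) hs10) hq1
  refine ⟨R0 + 1, fun n hn G M hM hno => ?_⟩
  by_contra hcon
  push Not at hcon
  apply hno
  have hn0 : (0 : ℝ) < n := by
    have : 0 < n := by omega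
    exact_mod_cast this
  have hsum : n * n < q * ∑ x ∈ (Finset.univ : Finset (Fin n)),
      ((Finset.univ : Finset (Fin n)).filter fun y => G.Adj x y).card := by
    have h1 : ∑ x : Fin n, ((Finset.univ : Finset (Fin n)).filter fun y => G.Adj x y).card =
        2 * G.edgeSet.ncard := by
      have h2 := G.sum_degrees_eq_twice_card_edges
      have h3 : G.edgeSet.ncard = G.edgeFinset.card := by
        rw [← SimpleGraph.coe_edgeFinset, Set.ncard_coe_finset]
      rw [h3, ← h2]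
      refine Finset.sum_congr rfl fun x _ => ?_
      rw [← SimpleGraph.card_neighborFinset_eq_degree]
      congr 1
      ext y
      simp
    rw [h1]
    have h4 : ((n * n : ℕ) : ℝ) < ((q * (2 * G.edgeSet.ncard) : ℕ) : ℝ) := by
      push_cast
      have h5 : 1 < q * ε := by
        rw [div_lt_iff₀ hε] at hq
        exact hq
      have h6 : (n : ℝ) * n < (q * ε) * (n * n) := by
        have : 0 < (n : ℝ) * n := by positivity
        nlinarith
      have h7 : (q : ℝ) * (ε * n ^ 2) < q * G.edgeSet.ncard := mul_lt_mul_of_pos_left hcon hq0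
      nlinarith
    exact_mod_cast h4
  obtain ⟨X, -, Y, -, hX, hY, hXY⟩ := hR0 (Finset.univ : Finset (Fin n)) Finset.univ
    (fun x y => G.Adj x y) n (by omega) (by simp) (by simp) (by
      convert hsum using 6)
  -- ten vertices of `X`
  have hX10 : 10 ≤ X.card := by omega
  obtain ⟨X', hX', hcX'⟩ := Finset.exists_subset_card_eq hX10
  let e : Fin 10 ≃ X' := (Finset.equivFinOfCardEq hcX').symm
  have hadj : ∀ i : Fin 10, ∀ y ∈ Y, G.Adj (e i : Fin n) y := fun i y hy =>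
    hXY _ (hX' (e i).2) y hy
  have hdisj : ∀ i : Fin 10, ∀ y ∈ Y, (e i : Fin n) ≠ y := fun i y hy => (hadj i y hy).ne
  have einj : ∀ i j : Fin 10, i ≠ j → (e i : Fin n) ≠ e j := fun i j h h' =>
    h (e.injective (Subtype.ext h'))
  have hw : ∀ i j, ∀ y ∈ Y, ∀ z ∈ Y, M s((e i : Fin n), y) = M s((e j : Fin n), z) →
      i = j ∧ y = z := by
    intro i j y hy z hz h
    have h1 := hM ((SimpleGraph.mem_edgeSet G).2 (hadj i y hy)) ((SimpleGraph.mem_edgeSet G).2
      (hadj j z hz)) h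
    rw [Sym2.eq_iff] at h1
    rcases h1 with ⟨h2, h3⟩ | ⟨h2, h3⟩
    · exact ⟨e.injective (Subtype.ext h2), h3⟩
    · exact absurd h2 (hdisj i z hz)
  have hcard : K < Y.card := by
    rw [hY, hs]; omega
  have hcomm : ∀ a b : Fin n, M s(a, b) = M s(b, a) := fun a b => by rw [Sym2.eq_swap]
  rw [hasCopy_iff]
  rcases hK (fun i y => M s((e i : Fin n), y)) Y hw hcard with
    ⟨i1, i2, i3, n12, n13, n23, y1, h1, y2, h2, y3, h3, y4, h4, d12, d13, d14, d23, d24, d34,
      m1, m2, m3, m4, m5⟩ |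
    ⟨s1, s2, s3, s4, n12, n13, n14, n23, n24, n34, k1, h1, k2, h2, k3, h3, d12, d13, d23,
      m1, m2, m3, m4, m5⟩
  · -- the close vertices are in `Y`
    refine ⟨![y3, e i1, y1, e i2, y4, e i3, y2], ?_, ?_, ?_, ?_, ?_, ?_, ?_, ?_, ?_, ?_, ?_, ?_⟩
    · have a1 := einj i1 i2 n12
      have a2 := einj i1 i3 n13
      have a3 := einj i2 i3 n23
      have b1 := fun i => hdisj i y1 h1
      have b2 := fun i => hdisj i y2 h2
      have b3 := fun i => hdisj i y3 h3
      have b4 := fun i => hdisj i y4 h4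
      intro p q hpq
      fin_cases p <;> fin_cases q <;>
        first
        | rfl
        | (exfalso
           simp only [Fin.zero_eta, Fin.mk_one, Fin.reduceFinMk, Matrix.cons_val_zero,
             Matrix.cons_val_one, Matrix.cons_val] at hpq
           first
           | exact a1 hpq
           | exact a1 hpq.symm
           | exact a2 hpq
           | exact a2 hpq.symm
           | exact a3 hpq
           | exact a3 hpq.symm
           | exact b1 _ hpq
           | exact b1 _ hpq.symm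
           | exact b2 _ hpq
           | exact b2 _ hpq.symm
           | exact b3 _ hpq
           | exact b3 _ hpq.symm
           | exact b4 _ hpq
           | exact b4 _ hpq.symm
           | exact d12 hpq
           | exact d12 hpq.symm
           | exact d13 hpq
           | exact d13 hpq.symm
           | exact d14 hpq
           | exact d14 hpq.symm
           | exact d23 hpq
           | exact d23 hpq.symm
           | exact d24 hpq
           | exact d24 hpq.symm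
           | exact d34 hpq
           | exact d34 hpq.symm)
    · exact (hadj i1 y3 h3).symm
    · exact hadj i1 y1 h1
    · exact (hadj i2 y1 h1).symm
    · exact hadj i2 y4 h4
    · exact (hadj i3 y4 h4).symm
    · exact hadj i3 y2 h2
    · show M s(↑(e i1), y1) < M s(y1, ↑(e i2))
      rw [hcomm y1]; exact m1
    · show M s(y1, ↑(e i2)) < M s(↑(e i3), y2)
      rw [hcomm y1]; exact m2
    · show M s(↑(e i3), y2) < M s(y3, ↑(e i1))
      rw [hcomm y3]; exact m3
    · show M s(y3, ↑(e i1)) < M s(↑(e i2), y4)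
      rw [hcomm y3]; exact m4
    · show M s(↑(e i2), y4) < M s(y4, ↑(e i3))
      rw [hcomm y4]; exact m5
  · -- the close vertices are in `X`
    refine ⟨![e s3, k1, e s1, k2, e s4, k3, e s2], ?_, ?_, ?_, ?_, ?_, ?_, ?_, ?_, ?_, ?_, ?_, ?_⟩
    · have a1 := einj s1 s2 n12
      have a2 := einj s1 s3 n13
      have a3 := einj s1 s4 n14
      have a4 := einj s2 s3 n23
      have a5 := einj s2 s4 n24
      have a6 := einj s3 s4 n34
      have b1 := fun i => hdisj i k1 h1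
      have b2 := fun i => hdisj i k2 h2
      have b3 := fun i => hdisj i k3 h3
      intro p q hpq
      fin_cases p <;> fin_cases q <;>
        first
        | rfl
        | (exfalso
           simp only [Fin.zero_eta, Fin.mk_one, Fin.reduceFinMk, Matrix.cons_val_zero,
             Matrix.cons_val_one, Matrix.cons_val] at hpq
           first
           | exact a1 hpq
           | exact a1 hpq.symm
           | exact a2 hpq
           | exact a2 hpq.symm
           | exact a3 hpq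
           | exact a3 hpq.symm
           | exact a4 hpq
           | exact a4 hpq.symm
           | exact a5 hpq
           | exact a5 hpq.symm
           | exact a6 hpq
           | exact a6 hpq.symm
           | exact b1 _ hpq
           | exact b1 _ hpq.symm
           | exact b2 _ hpq
           | exact b2 _ hpq.symm
           | exact b3 _ hpq
           | exact b3 _ hpq.symm
           | exact d12 hpq
           | exact d12 hpq.symm
           | exact d13 hpq
           | exact d13 hpq.symm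
           | exact d23 hpq
           | exact d23 hpq.symm)
    · exact hadj s3 k1 h1
    · exact (hadj s1 k1 h1).symm
    · exact hadj s1 k2 h2
    · exact (hadj s4 k2 h2).symm
    · exact hadj s4 k3 h3
    · exact (hadj s2 k3 h3).symm
    · show M s(k1, ↑(e s1)) < M s(↑(e s1), k2)
      rw [hcomm k1]; exact m1
    · show M s(↑(e s1), k2) < M s(k3, ↑(e s2))
      rw [hcomm k3]; exact m2
    · show M s(k3, ↑(e s2)) < M s(↑(e s3), k1)
      rw [hcomm k3]; exact m3
    · show M s(↑(e s3), k1) < M s(k2, ↑(e s4))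
      rw [hcomm k2]; exact m4
    · show M s(k2, ↑(e s4)) < M s(↑(e s4), k3)
      rw [hcomm k2]; exact m5

end Pool.Agent.W175.EO
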