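import Mathlib

/-!
The edge-ordered path `v0 v1 ... v6` whose edges have, along the path, the ranks `4,1,2,5,6,3`.
-/

set_option autoImplicit false

namespace Pool.Agent.W175.EO

/-- the path with seven vertices -/
abbrev F7 : SimpleGraph (Fin 7) := SimpleGraph.pathGraph 7

/-- rank of the edge `{i, i+1}` -/
def T7 : Fin 7 → ℕ := ![4, 1, 2, 5, 6, 3, 0]

/-- the edge labels -/
def L7 : Sym2 (Fin 7) → ℕ := Sym2.lift ⟨fun a b => T7 (min a b), fun a b => by simp only [min_comm]⟩

theorem L7_mk (a b : Fin 7) : L7 s(a, b) = T7 (min a b) := rfl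

instance : DecidableRel F7.Adj := fun a b =>
  decidable_of_iff (a.val + 1 = b.val ∨ b.val + 1 = a.val) (SimpleGraph.pathGraph_adj).symm

theorem F7_adj (a b : Fin 7) : F7.Adj a b ↔ a.val + 1 = b.val ∨ b.val + 1 = a.val :=
  SimpleGraph.pathGraph_adj

theorem L7_inj : Set.InjOn L7 F7.edgeSet := by
  intro e he f hf h
  induction e using Sym2.ind with
  | _ a b =>
    induction f using Sym2.ind with
    | _ c d =>
      rw [SimpleGraph.mem_edgeSet] at he hf
      rw [L7_mk, L7_mk] at h
      revert a b c d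
      decide

theorem F7_acyclic : F7.IsAcyclic := by
  have hc : F7.Connected := SimpleGraph.pathGraph_connected 6
  have : F7.IsTree := by
    rw [SimpleGraph.isTree_iff_connected_and_card]
    refine ⟨hc, ?_⟩
    rw [Nat.card_eq_fintype_card, Nat.card_eq_fintype_card, Fintype.card_fin]
    rw [← SimpleGraph.edgeFinset_card]
    decide
  exact this.isAcyclic

/-- A copy of the edge-ordered path in an edge-ordered graph. -/
def HasCopy {V : Type} (G : SimpleGraph V) (M : Sym2 V → ℕ) : Prop :=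
  ∃ φ : Fin 7 ↪ V, (∀ a b, F7.Adj a b → G.Adj (φ a) (φ b)) ∧
    ∀ e ∈ F7.edgeSet, ∀ f ∈ F7.edgeSet, L7 e < L7 f →
      M (Sym2.map (⇑φ) e) < M (Sym2.map (⇑φ) f)

/-- a copy, in elementary terms -/
theorem hasCopy_iff {V : Type} (G : SimpleGraph V) (M : Sym2 V → ℕ) :
    HasCopy G M ↔ ∃ v : Fin 7 → V, Function.Injective v ∧
      G.Adj (v 0) (v 1) ∧ G.Adj (v 1) (v 2) ∧ G.Adj (v 2) (v 3) ∧ G.Adj (v 3) (v 4) ∧
      G.Adj (v 4) (v 5) ∧ G.Adj (v 5) (v 6) ∧
      M s(v 1, v 2) < M s(v 2, v 3) ∧ M s(v 2, v 3) < M s(v 5, v 6) ∧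
      M s(v 5, v 6) < M s(v 0, v 1) ∧ M s(v 0, v 1) < M s(v 3, v 4) ∧
      M s(v 3, v 4) < M s(v 4, v 5) := by
  constructor
  · rintro ⟨φ, h1, h2⟩
    have hadj : ∀ a b : Fin 7, a.val + 1 = b.val → F7.Adj a b := fun a b h =>
      (F7_adj a b).2 (Or.inl h)
    refine ⟨φ, φ.injective, h1 _ _ (hadj 0 1 rfl), h1 _ _ (hadj 1 2 rfl), h1 _ _ (hadj 2 3 rfl),
      h1 _ _ (hadj 3 4 rfl), h1 _ _ (hadj 4 5 rfl), h1 _ _ (hadj 5 6 rfl), ?_, ?_, ?_, ?_, ?_⟩
    · exact h2 s(1, 2) (hadj 1 2 rfl) s(2, 3) (hadj 2 3 rfl) (by decide)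
    · exact h2 s(2, 3) (hadj 2 3 rfl) s(5, 6) (hadj 5 6 rfl) (by decide)
    · exact h2 s(5, 6) (hadj 5 6 rfl) s(0, 1) (hadj 0 1 rfl) (by decide)
    · exact h2 s(0, 1) (hadj 0 1 rfl) s(3, 4) (hadj 3 4 rfl) (by decide)
    · exact h2 s(3, 4) (hadj 3 4 rfl) s(4, 5) (hadj 4 5 rfl) (by decide)
  · rintro ⟨v, hv, a01, a12, a23, a34, a45, a56, m1, m2, m3, m4, m5⟩
    refine ⟨⟨v, hv⟩, ?_, ?_⟩
    · intro a b hab
      rw [F7_adj] at hab
      show G.Adj (v a) (v b)
      have key : ∀ a b : Fin 7, a.val + 1 = b.val → G.Adj (v a) (v b) := by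
        intro a b h
        fin_cases a <;> fin_cases b <;> simp at h <;> assumption
      rcases hab with h | h
      · exact key a b h
      · exact (key b a h).symm
    · -- monotonicity
      have hmono : ∀ a b c d : Fin 7, a.val + 1 = b.val → c.val + 1 = d.val →
          T7 a < T7 c → M s(v a, v b) < M s(v c, v d) := by
        intro a b c d h1 h2 h3
        have hsucc : ∀ a b : Fin 7, a.val + 1 = b.val → b = a + 1 := by decide
        have ha6 : a.val < 6 := by omega
        have hc6 : c.val < 6 := by omega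
        have hb := hsucc a b h1
        have hd := hsucc c d h2
        clear h1 h2
        subst hb; subst hd
        have e1 : M s(v 1, v 2) < M s(v 5, v 6) := m1.trans m2
        have e2 : M s(v 1, v 2) < M s(v 0, v 1) := e1.trans m3
        have e3 : M s(v 1, v 2) < M s(v 3, v 4) := e2.trans m4
        have e4 : M s(v 1, v 2) < M s(v 4, v 5) := e3.trans m5
        have e5 : M s(v 2, v 3) < M s(v 0, v 1) := m2.trans m3
        have e6 : M s(v 2, v 3) < M s(v 3, v 4) := e5.trans m4
        have e7 : M s(v 2, v 3) < M s(v 4, v 5) := e6.trans m5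
        have e8 : M s(v 5, v 6) < M s(v 3, v 4) := m3.trans m4
        have e9 : M s(v 5, v 6) < M s(v 4, v 5) := e8.trans m5
        have e10 : M s(v 0, v 1) < M s(v 4, v 5) := m4.trans m5
        fin_cases a <;> fin_cases c <;>
          first
          | (exfalso; revert h3; simp [T7]; done)
          | (exfalso; simp at ha6; done)
          | (exfalso; simp at hc6; done)
          | assumption
      have norm : ∀ e ∈ F7.edgeSet, ∃ a b : Fin 7, a.val + 1 = b.val ∧ e = s(a, b) := by
        intro e he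
        induction e using Sym2.ind with
        | _ a b =>
          rw [SimpleGraph.mem_edgeSet, F7_adj] at he
          rcases he with h | h
          · exact ⟨a, b, h, rfl⟩
          · exact ⟨b, a, h, Sym2.eq_swap⟩
      intro e he f hf hlt
      obtain ⟨a, b, hab, rfl⟩ := norm e he
      obtain ⟨c, d, hcd, rfl⟩ := norm f hf
      rw [L7_mk, L7_mk] at hlt
      have ha : min a b = a := min_eq_left (by rw [Fin.le_def]; omega)
      have hc : min c d = c := min_eq_left (by rw [Fin.le_def]; omega)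
      rw [ha, hc] at hlt
      exact hmono a b c d hab hcd hlt

end Pool.Agent.W175.EO
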