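import Pool.Agent.W175.EO.Lower
import Pool.Agent.W175.EO.Pat

/-!
The edge-ordered graph of the matrix: the edges are ordered by column first, then by row.
-/

set_option autoImplicit false

namespace Pool.Agent.W175.EO

/-- rank of a row: decreasing centre -/
noncomputable def rowRank {m t : ℕ} (r : Row m t) : ℕ :=
  (t - 1 - r.1.val) * Fintype.card (Fin m → Fin t) + (Fintype.equivFin (Fin m → Fin t) r.2).val

theorem rowRank_lt {m t : ℕ} (r : Row m t) : rowRank r < t * Fintype.card (Fin m → Fin t) := by
  have h1 := r.1.2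
  have h2 := (Fintype.equivFin (Fin m → Fin t) r.2).2
  unfold rowRank
  have h3 : (t - 1 - r.1.val + 1) * Fintype.card (Fin m → Fin t) ≤
      t * Fintype.card (Fin m → Fin t) := Nat.mul_le_mul_right _ (by omega)
  have h4 : (t - 1 - r.1.val + 1) * Fintype.card (Fin m → Fin t) =
    (t - 1 - r.1.val) * Fintype.card (Fin m → Fin t) + Fintype.card (Fin m → Fin t) := by ring
  omega

theorem rowRank_mono {m t : ℕ} {r r' : Row m t} (h : rowRank r < rowRank r') :
    r'.1.val ≤ r.1.val := by
  by_contra hc
  push Not at hc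
  have h1 := r.1.2
  have h1' := r'.1.2
  have h2 := (Fintype.equivFin (Fin m → Fin t) r.2).2
  have h2' := (Fintype.equivFin (Fin m → Fin t) r'.2).2
  have h3 : (t - 1 - r'.1.val + 1) * Fintype.card (Fin m → Fin t) ≤
      (t - 1 - r.1.val) * Fintype.card (Fin m → Fin t) := Nat.mul_le_mul_right _ (by omega)
  have h4 : (t - 1 - r'.1.val + 1) * Fintype.card (Fin m → Fin t) =
    (t - 1 - r'.1.val) * Fintype.card (Fin m → Fin t) + Fintype.card (Fin m → Fin t) := by ring
  unfold rowRank at h
  omega

theorem rowRank_inj {m t : ℕ} : Function.Injective (rowRank : Row m t → ℕ) := by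
  intro r r' h
  have h1 := r.1.2
  have h1' := r'.1.2
  have h2 := (Fintype.equivFin (Fin m → Fin t) r.2).2
  have h2' := (Fintype.equivFin (Fin m → Fin t) r'.2).2
  have key : ∀ r r' : Row m t, rowRank r = rowRank r' → ¬ r.1.val < r'.1.val := by
    intro r r' h hlt
    have h1 := r.1.2
    have h1' := r'.1.2
    have h2 := (Fintype.equivFin (Fin m → Fin t) r.2).2
    have h2' := (Fintype.equivFin (Fin m → Fin t) r'.2).2
    have h3 : (t - 1 - r'.1.val + 1) * Fintype.card (Fin m → Fin t) ≤
      (t - 1 - r.1.val) * Fintype.card (Fin m → Fin t) := Nat.mul_le_mul_right _ (by omega)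
    have h4 : (t - 1 - r'.1.val + 1) * Fintype.card (Fin m → Fin t) =
      (t - 1 - r'.1.val) * Fintype.card (Fin m → Fin t) + Fintype.card (Fin m → Fin t) := by ring
    unfold rowRank at h
    omega
  have e1 : r.1.val = r'.1.val := by
    have := key r r' h
    have := key r' r h.symm
    omega
  have e2 : (Fintype.equivFin (Fin m → Fin t) r.2).val =
      (Fintype.equivFin (Fin m → Fin t) r'.2).val := by
    unfold rowRank at h
    rw [e1] at h
    omega
  refine Prod.ext (Fin.ext e1) ?_
  exact (Fintype.equivFin (Fin m → Fin t)).injective (Fin.ext e2)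

noncomputable instance (m t : ℕ) : Fintype (Col m t) := inferInstanceAs (Fintype (Fin m → Fin (3 * t)))

/-- rank of a column in the lexicographic order -/
noncomputable def colRank {m t : ℕ} (c : Col m t) : ℕ :=
  ((Fintype.orderIsoFinOfCardEq (Col m t) rfl).symm c).val

theorem colRank_inj {m t : ℕ} : Function.Injective (colRank : Col m t → ℕ) := by
  intro c c' h
  exact (Fintype.orderIsoFinOfCardEq (Col m t) rfl).symm.injective (Fin.ext h)

theorem colRank_lt {m t : ℕ} {c c' : Col m t} (h : colRank c < colRank c') : c < c' := by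
  have : (Fintype.orderIsoFinOfCardEq (Col m t) rfl).symm c <
    (Fintype.orderIsoFinOfCardEq (Col m t) rfl).symm c' := h
  exact (OrderIso.lt_iff_lt _).1 this

/-- vertices -/
abbrev Vert (m t : ℕ) := Row m t ⊕ Col m t

/-- the bipartite graph -/
def GG (m t : ℕ) : SimpleGraph (Vert m t) where
  Adj u v := match u, v with
    | Sum.inl r, Sum.inr c => Inc r c
    | Sum.inr c, Sum.inl r => Inc r c
    | _, _ => False
  symm := ⟨fun u v h => by
    rcases u with r | c <;> rcases v with r' | c' <;> exact h⟩
  loopless := ⟨fun u h => by rcases u with r | c <;> exact h⟩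

/-- label of an incidence -/
noncomputable def key {m t : ℕ} (r : Row m t) (c : Col m t) : ℕ :=
  colRank c * (t * Fintype.card (Fin m → Fin t)) + rowRank r

/-- the edge labels -/
noncomputable def MM (m t : ℕ) : Sym2 (Vert m t) → ℕ :=
  Sym2.lift ⟨fun u v => match u, v with
    | Sum.inl r, Sum.inr c => key r c
    | Sum.inr c, Sum.inl r => key r c
    | _, _ => 0, fun u v => by rcases u with r | c <;> rcases v with r' | c' <;> rfl⟩

theorem MM_rc {m t : ℕ} (r : Row m t) (c : Col m t) : MM m t s(Sum.inl r, Sum.inr c) = key r c := rfl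
theorem MM_cr {m t : ℕ} (r : Row m t) (c : Col m t) : MM m t s(Sum.inr c, Sum.inl r) = key r c := rfl

theorem key_lt {m t : ℕ} {r r' : Row m t} {c c' : Col m t} (h : key r c < key r' c') :
    colRank c ≤ colRank c' ∧ (colRank c = colRank c' → rowRank r < rowRank r') := by
  have h1 := rowRank_lt r
  have h2 := rowRank_lt r'
  unfold key at h
  constructor
  · by_contra hc
    push Not at hc
    have h3 : (colRank c' + 1) * (t * Fintype.card (Fin m → Fin t)) ≤
      colRank c * (t * Fintype.card (Fin m → Fin t)) := Nat.mul_le_mul_right _ hc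
    rw [Nat.add_mul] at h3
    omega
  · intro he
    rw [he] at h
    omega

theorem key_inj {m t : ℕ} {r r' : Row m t} {c c' : Col m t} (h : key r c = key r' c') :
    r = r' ∧ c = c' := by
  have h1 := rowRank_lt r
  have h2 := rowRank_lt r'
  have aux : ∀ (r r' : Row m t) (c c' : Col m t), key r c = key r' c' →
      ¬ colRank c < colRank c' := by
    intro r r' c c' h hc
    have h1 := rowRank_lt r
    have h2 := rowRank_lt r'
    unfold key at h
    have h3 : (colRank c + 1) * (t * Fintype.card (Fin m → Fin t)) ≤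
      colRank c' * (t * Fintype.card (Fin m → Fin t)) := Nat.mul_le_mul_right _ hc
    rw [Nat.add_mul] at h3
    omega
  have e : colRank c = colRank c' := by
    have := aux r r' c c' h
    have := aux r' r c' c h.symm
    omega
  unfold key at h
  rw [e] at h
  exact ⟨rowRank_inj (by omega), colRank_inj e⟩

theorem MM_inj (m t : ℕ) : Set.InjOn (MM m t) (GG m t).edgeSet := by
  have norm : ∀ e ∈ (GG m t).edgeSet, ∃ r c, e = s(Sum.inl r, Sum.inr c) := by
    intro e he
    induction e using Sym2.ind with
    | _ u v =>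
      rw [SimpleGraph.mem_edgeSet] at he
      rcases u with r | c <;> rcases v with r' | c'
      · exact he.elim
      · exact ⟨r, c', rfl⟩
      · exact ⟨r', c, Sym2.eq_swap⟩
      · exact he.elim
  intro e he f hf h
  obtain ⟨r, c, rfl⟩ := norm e he
  obtain ⟨r', c', rfl⟩ := norm f hf
  rw [MM_rc, MM_rc] at h
  obtain ⟨rfl, rfl⟩ := key_inj h
  rfl

theorem no_copy (m t : ℕ) : ¬ HasCopy (GG m t) (MM m t) := by
  rw [hasCopy_iff]
  rintro ⟨v, hv, a01, a12, a23, a34, a45, a56, m1, m2, m3, m4, m5⟩
  have ne : ∀ i j : Fin 7, i ≠ j → v i ≠ v j := fun i j hij h => hij (hv h)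
  have n26 := ne 2 6 (by decide)
  have n60 := ne 6 0 (by decide)
  have n04 := ne 0 4 (by decide)
  have n13 := ne 1 3 (by decide)
  have n35 := ne 3 5 (by decide)
  have n15 := ne 1 5 (by decide)
  generalize v 0 = v0 at *
  generalize v 1 = v1 at *
  generalize v 2 = v2 at *
  generalize v 3 = v3 at *
  generalize v 4 = v4 at *
  generalize v 5 = v5 at *
  generalize v 6 = v6 at *
  rcases v1 with r1 | k1
  · -- rows are mapped to rows
    rcases v0 with x | c3
    · exact a01
    rcases v2 with x | c1
    · exact a12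
    rcases v3 with r2 | x
    swap
    · exact a23
    rcases v4 with x | c4
    · exact a34
    rcases v5 with r3 | x
    swap
    · exact a45
    rcases v6 with x | c2
    · exact a56
    rw [MM_rc, MM_cr] at m1
    rw [MM_cr, MM_rc] at m2
    rw [MM_rc, MM_cr] at m3
    rw [MM_cr, MM_rc] at m4
    rw [MM_rc, MM_cr] at m5
    have w1 := key_lt m1
    have w2 := key_lt m2
    have w3 := key_lt m3
    have w4 := key_lt m4
    have w5 := key_lt m5
    have d12 : colRank c1 ≠ colRank c2 := fun h => n26 (by rw [colRank_inj h])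
    have d23 : colRank c2 ≠ colRank c3 := fun h => n60 (by rw [colRank_inj h])
    have d34 : colRank c3 ≠ colRank c4 := fun h => n04 (by rw [colRank_inj h])
    have l12 : c1 < c2 := colRank_lt (lt_of_le_of_ne w2.1 d12)
    have l23 : c2 < c3 := colRank_lt (lt_of_le_of_ne w3.1 d23)
    have l34 : c3 < c4 := colRank_lt (lt_of_le_of_ne w4.1 d34)
    have q12 := w1.2 rfl
    have i11 : Inc r1 c1 := a12
    have i13 : Inc r1 c3 := a01
    have i21 : Inc r2 c1 := a23
    have i24 : Inc r2 c4 := a34
    have i34 : Inc r3 c4 := a45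
    have i32 : Inc r3 c2 := a56
    have h12 : r2.1 < r1.1 := by
      have e1 := rowRank_mono q12
      have e2 : r1.1 ≠ r2.1 := fun h => n13 (by rw [row_det i11 i21 h])
      exact lt_of_le_of_ne e1 (Ne.symm e2)
    have h23 : r3 ≠ r2 := fun h => n35 (by rw [h])
    exact avoid h12 h23 l12 l23 l34 i11 i13 i21 i24 i32 i34
  · rcases v0 with x | x
    swap
    · exact a01
    rcases v2 with y | y
    swap
    · exact a12
    rcases v3 with z | k3
    · exact a23
    rcases v4 with u | u
    swap
    · exact a34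
    rcases v5 with z | k5
    · exact a45
    rcases v6 with w | w
    swap
    · exact a56
    rw [MM_cr, MM_rc] at m1
    rw [MM_rc, MM_cr] at m2
    rw [MM_cr, MM_rc] at m3
    have w1 := (key_lt m1).1
    have w2 := (key_lt m2).1
    have w3 := (key_lt m3).1
    have : colRank k1 = colRank k3 := by omega
    exact n13 (by rw [colRank_inj this])

/-- number of vertices and edges -/
theorem card_vert (m t : ℕ) : Fintype.card (Vert m t) = t * t ^ m + (3 * t) ^ m := by
  rw [Fintype.card_sum, Fintype.card_prod, Fintype.card_fin, Fintype.card_fun, Fintype.card_fin,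
    Fintype.card_fin]
  congr 1
  have : Fintype.card (Col m t) = Fintype.card (Fin m → Fin (3 * t)) := rfl
  rw [this, Fintype.card_fun, Fintype.card_fin, Fintype.card_fin]

theorem edges_ge (m t : ℕ) : t * t ^ m * 2 ^ m ≤ (GG m t).edgeSet.ncard := by
  classical
  let f : Row m t × (Fin m → Bool) → Sym2 (Vert m t) := fun p =>
    s(Sum.inl p.1, Sum.inr (corner p.1 p.2))
  have hf : Function.Injective f := by
    rintro ⟨r, S⟩ ⟨r', S'⟩ h
    have h2 : s((Sum.inl r : Vert m t), Sum.inr (corner r S)) =
      s(Sum.inl r', Sum.inr (corner r' S')) := h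
    rw [Sym2.eq_iff] at h2
    rcases h2 with ⟨h3, h4⟩ | ⟨h3, h4⟩
    · have e := Sum.inl.inj h3
      subst e
      have e2 := corner_inj r (Sum.inr.inj h4)
      rw [e2]
    · exact absurd h3 (by simp)
  have h1 : Set.range f ⊆ (GG m t).edgeSet := by
    rintro _ ⟨p, rfl⟩
    show (GG m t).Adj (Sum.inl p.1) (Sum.inr (corner p.1 p.2))
    exact corner_inc p.1 p.2
  have h2 : (Set.range f).ncard = t * t ^ m * 2 ^ m := by
    rw [← Set.image_univ, Set.ncard_image_of_injective _ hf, Set.ncard_univ,
      Nat.card_eq_fintype_card, Fintype.card_prod, Fintype.card_prod, Fintype.card_fin,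
      Fintype.card_fun, Fintype.card_fin, Fintype.card_fin, Fintype.card_fun, Fintype.card_fin,
      Fintype.card_bool]
  rw [← h2]
  exact Set.ncard_le_ncard h1 (Set.toFinite _)

/-- transfer to `Fin n` -/
theorem lower (m : ℕ) : ∃ (G : SimpleGraph (Fin (2 * (3 ^ m * (3 ^ m) ^ m))))
    (M : Sym2 (Fin (2 * (3 ^ m * (3 ^ m) ^ m))) → ℕ), Set.InjOn M G.edgeSet ∧ ¬ HasCopy G M ∧
    2 ^ m * (3 ^ m * (3 ^ m) ^ m) ≤ G.edgeSet.ncard := by
  set t := 3 ^ m with ht
  have hcard : Fintype.card (Vert m t) = 2 * (t * t ^ m) := by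
    rw [card_vert, mul_pow, ← ht]; ring
  let e : Vert m t ≃ Fin (2 * (t * t ^ m)) := Fintype.equivFinOfCardEq hcard
  refine ⟨(GG m t).map e.toEmbedding, fun x => MM m t (Sym2.map e.symm x), ?_, ?_, ?_⟩
  · intro x hx y hy hxy
    rw [SimpleGraph.edgeSet_map] at hx hy
    obtain ⟨x', hx', rfl⟩ := hx
    obtain ⟨y', hy', rfl⟩ := hy
    have aux : ∀ z : Sym2 (Vert m t), Sym2.map e.symm (e.toEmbedding.sym2Map z) = z := by
      intro z
      induction z using Sym2.ind with
      | _ a b => simp
    have h2 : MM m t (Sym2.map e.symm (e.toEmbedding.sym2Map x')) =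
      MM m t (Sym2.map e.symm (e.toEmbedding.sym2Map y')) := hxy
    rw [aux, aux] at h2
    rw [MM_inj m t hx' hy' h2]
  · rintro ⟨φ, h1, h2⟩
    apply no_copy m t
    refine ⟨φ.trans e.symm.toEmbedding, ?_, ?_⟩
    · intro a b hab
      have := h1 a b hab
      rw [SimpleGraph.map_adj] at this
      obtain ⟨u, v, huv, hu, hv⟩ := this
      have e1 : e.symm (φ a) = u := by
        rw [← hu]; simp
      have e2 : e.symm (φ b) = v := by
        rw [← hv]; simp
      show (GG m t).Adj (e.symm (φ a)) (e.symm (φ b))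
      rw [e1, e2]
      exact huv
    · intro x hx y hy hxy
      have := h2 x hx y hy hxy
      have aux : ∀ z : Sym2 (Fin 7), Sym2.map (⇑(φ.trans e.symm.toEmbedding)) z =
        Sym2.map e.symm (Sym2.map φ z) := by
        intro z
        rw [Sym2.map_map]
        rfl
      rw [aux, aux]
      exact this
  · rw [SimpleGraph.edgeSet_map, Set.ncard_image_of_injective _ (Function.Embedding.injective _)]
    refine le_trans (le_of_eq ?_) (edges_ge m t)
    ring

end Pool.Agent.W175.EO
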