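import Mathlib

/-!
Lower bound: a 0-1 matrix of size about `3^(m(m+1))` with about `2^m` ones per row which has no
three rows `r1 < r2 < r3` and four columns `c1 < c2 < c3 < c4` with ones at
`(r1,c1), (r1,c3), (r2,c1), (r2,c4), (r3,c2), (r3,c4)`.
Columns are the points of a grid in the lexicographic order, rows are boxes with centre on the
diagonal, in the order of decreasing centres; a row has a one at the corners of its box.
-/

set_option autoImplicit false

namespace Pool.Agent.W175.EO

/-- columns -/
abbrev Col (m t : ℕ) := Lex (Fin m → Fin (3 * t))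
/-- rows: centre and lower corner -/
abbrev Row (m t : ℕ) := Fin t × (Fin m → Fin t)

/-- incidence: every coordinate of the column is one of the two ends of the interval of the box -/
def Inc {m t : ℕ} (r : Row m t) (c : Col m t) : Prop :=
  ∀ k : Fin m, (ofLex c k).val = (r.2 k).val ∨ (ofLex c k).val + (r.2 k).val = 2 * t + r.1.val

theorem row_det {m t : ℕ} {r r' : Row m t} {c : Col m t} (h : Inc r c) (h' : Inc r' c)
    (he : r.1 = r'.1) : r = r' := by
  refine Prod.ext he ?_
  funext k
  apply Fin.ext
  have h1 := h k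
  have h2 := h' k
  have h3 := (r.2 k).2
  have h4 := (r'.2 k).2
  rw [← he] at h2
  omega

theorem lex_le {m T : ℕ} {a b : Lex (Fin m → Fin T)} (hab : a < b) (k : Fin m)
    (hpre : ∀ j < k, ofLex a j = ofLex b j) : ofLex a k ≤ ofLex b k := by
  obtain ⟨i, hi, hlt⟩ := hab
  change ∀ j < i, ofLex a j = ofLex b j at hi
  change ofLex a i < ofLex b i at hlt
  rcases lt_trichotomy i k with h | h | h
  · rw [hpre i h] at hlt
    exact absurd hlt (lt_irrefl _)
  · subst h; exact hlt.le
  · exact (hi k h).le

theorem lex_prefix {m T : ℕ} {a b c : Lex (Fin m → Fin T)} (hab : a < b) (hbc : b < c) (k : Fin m)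
    (hpre : ∀ j < k, ofLex a j = ofLex c j) : ∀ j < k, ofLex a j = ofLex b j := by
  intro j
  induction j using WellFoundedLT.induction with
  | ind j ih =>
    intro hj
    apply le_antisymm
    · exact lex_le hab j (fun i hi => ih i hi (hi.trans hj))
    · rw [hpre j hj]
      exact lex_le hbc j (fun i hi => by
        rw [← ih i hi (hi.trans hj)]
        exact hpre i (hi.trans hj))

/-- The matrix avoids the pattern. -/
theorem avoid {m t : ℕ} {r1 r2 r3 : Row m t} {c1 c2 c3 c4 : Col m t}
    (h12 : r2.1 < r1.1) (h23 : r3 ≠ r2) (k12 : c1 < c2) (k23 : c2 < c3) (k34 : c3 < c4)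
    (i11 : Inc r1 c1) (i13 : Inc r1 c3) (i21 : Inc r2 c1) (i24 : Inc r2 c4)
    (i32 : Inc r3 c2) (i34 : Inc r3 c4) : False := by
  have h14 : c1 < c4 := k12.trans (k23.trans k34)
  have hs : r3.1 ≠ r2.1 := fun h => h23 (row_det i34 i24 h)
  obtain ⟨k, hk, hlt⟩ := h14
  change ∀ j < k, ofLex c1 j = ofLex c4 j at hk
  change ofLex c1 k < ofLex c4 k at hlt
  have p2 : ∀ j < k, ofLex c1 j = ofLex c2 j := lex_prefix k12 (k23.trans k34) k hk
  have p3 : ∀ j < k, ofLex c1 j = ofLex c3 j := lex_prefix (k12.trans k23) k34 k hk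
  have e12 := lex_le k12 k p2
  have e23 := lex_le k23 k (fun j hj => (p2 j hj).symm.trans (p3 j hj))
  have e34 := lex_le k34 k (fun j hj => (p3 j hj).symm.trans (hk j hj))
  have a1 := i11 k
  have a2 := i13 k
  have a3 := i21 k
  have a4 := i24 k
  have a5 := i32 k
  have a6 := i34 k
  have b1 := (r1.2 k).2
  have b2 := (r2.2 k).2
  have b3 := (r3.2 k).2
  rw [Fin.lt_def] at hlt h12
  rw [Fin.le_def] at e12 e23 e34
  have hs' : r3.1.val ≠ r2.1.val := fun h => hs (Fin.ext h)
  omega

/-- the column of a box with given corner -/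
def corner {m t : ℕ} (r : Row m t) (S : Fin m → Bool) : Col m t :=
  toLex (fun k => if S k then ⟨2 * t + r.1.val - (r.2 k).val, by
      have := r.1.2; have := (r.2 k).2; omega⟩ else ⟨(r.2 k).val, by
      have := (r.2 k).2; omega⟩)

theorem corner_inc {m t : ℕ} (r : Row m t) (S : Fin m → Bool) : Inc r (corner r S) := by
  intro k
  have := (r.2 k).2
  by_cases h : S k
  · right
    simp only [corner, ofLex_toLex, h, if_true]
    omega
  · left
    simp [corner, h]

theorem corner_inj {m t : ℕ} (r : Row m t) : Function.Injective (corner r) := by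
  intro S S' h
  funext k
  have h1 : ofLex (corner r S) k = ofLex (corner r S') k := by rw [h]
  have h2 := (r.2 k).2
  by_cases hS : S k <;> by_cases hS' : S' k
  · rw [hS, hS']
  · exfalso
    simp only [corner, ofLex_toLex, hS, hS', if_true] at h1
    have := congrArg Fin.val h1
    simp at this
    omega
  · exfalso
    simp only [corner, ofLex_toLex, hS, hS', if_true] at h1
    have := congrArg Fin.val h1
    simp at this
    omega
  · simp only [Bool.not_eq_true] at hS hS'
    rw [hS, hS']

end Pool.Agent.W175.EO
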